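import Pool.Agent.helper937_rot.Params

set_option autoImplicit false

open Finset Filter
open scoped Classical in
/-- Words of the Liouville function of length `j ^ (b + 2 + δ)` starting in `[2^j, 2^(j+1))` cannot,
outside an exceptional set of summable (non-increasing) density `E j`, be within Hamming distance
`j ^ b` of rotation words `h ↦ φ(t + h s)`. -/
theorem Pool.Agent.Results.MP_f6c41f_nt.RotationWords.result
    (b δ : ℝ) (hb : 0 ≤ b) (hδ : 0 < δ) (E : ℕ → ℝ) (hE : Antitone E) (hs : Summable E) :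
    ∃ᶠ j : ℕ in atTop, E j * 2 ^ j <
      (#{n ∈ Ico (2 ^ j) (2 ^ (j + 1)) | ∀ t s : ℝ, (j : ℝ) ^ b <
        (#{h ∈ range ⌈(j : ℝ) ^ (b + 2 + δ)⌉₊ |
          (-1 : ℤ) ^ (ArithmeticFunction.cardFactors (n + h)) ≠
            (if Int.fract (t + h * s) < 1 / 2 then 1 else -1)} : ℝ)} : ℝ) := by
  intro hcon
  rw [eventually_atTop] at hcon
  obtain ⟨J, hJ⟩ := hcon
  set f : ℕ → ℤ := fun n => (-1 : ℤ) ^ (ArithmeticFunction.cardFactors n) with hf
  set δ' := min δ 1 with hδ'
  have hδ'0 : 0 < δ' := lt_min hδ one_pos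
  have hδ'1 : δ' ≤ 1 := min_le_right _ _
  have hbad : ∀ j, max J 1 ≤ j → (#{n ∈ Ico (2 ^ j) (2 ^ (j + 1)) |
      ¬ Pool.Agent.helper937_rot.Rot f (Pool.Agent.helper937_rot.HH b δ' n)
        (Pool.Agent.helper937_rot.dd b n) n} : ℝ) ≤ E j * 2 ^ j := by
    intro j hj
    have hJj : J ≤ j := (le_max_left _ _).trans hj
    have hj1 : 1 ≤ j := (le_max_right _ _).trans hj
    have h := hJ j hJj
    push Not at h
    refine le_trans ?_ h
    have hsub : {n ∈ Ico (2 ^ j) (2 ^ (j + 1)) |
      ¬ Pool.Agent.helper937_rot.Rot f (Pool.Agent.helper937_rot.HH b δ' n)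
        (Pool.Agent.helper937_rot.dd b n) n} ⊆
        {n ∈ Ico (2 ^ j) (2 ^ (j + 1)) | ∀ t s : ℝ, (j : ℝ) ^ b <
        (#{h ∈ range ⌈(j : ℝ) ^ (b + 2 + δ)⌉₊ |
          (-1 : ℤ) ^ (ArithmeticFunction.cardFactors (n + h)) ≠
            (if Int.fract (t + h * s) < 1 / 2 then 1 else -1)} : ℝ)} := by
      intro n hn
      rw [mem_filter, mem_Ico] at hn ⊢
      refine ⟨hn.1, ?_⟩
      intro t s
      by_contra hc
      push Not at hc
      apply hn.2
      have hlog : Nat.log 2 n = j := by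
        rw [Nat.log_eq_iff (by omega)]
        exact hn.1
      refine ⟨t, s, ?_⟩
      unfold Pool.Agent.helper937_rot.dd Pool.Agent.helper937_rot.HH
      rw [hlog]
      refine le_trans ?_ hc
      have hcard : #{h ∈ range ⌈(j : ℝ) ^ (b + 2 + δ')⌉₊ |
          f (n + h) ≠ Pool.Agent.helper937_rot.phi (t + h * s)} ≤
          #{h ∈ range ⌈(j : ℝ) ^ (b + 2 + δ)⌉₊ |
          (-1 : ℤ) ^ (ArithmeticFunction.cardFactors (n + h)) ≠
            (if Int.fract (t + h * s) < 1 / 2 then 1 else -1)} := by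
        apply card_le_card
        intro h hh
        rw [mem_filter, mem_range] at hh ⊢
        refine ⟨lt_of_lt_of_le hh.1 ?_, hh.2⟩
        apply Nat.ceil_le_ceil
        apply Real.rpow_le_rpow_of_exponent_le
        · exact_mod_cast hj1
        · have := min_le_left δ 1
          linarith
      exact_mod_cast hcard
    exact_mod_cast card_le_card hsub
  obtain ⟨J₀, P⟩ := Pool.Agent.helper937_rot.mkPar (f := f)
    (fun n => neg_one_pow_eq_or ℤ _)
    (by
      intro a c ha hc
      rw [hf]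
      simp only
      rw [ArithmeticFunction.cardFactors_mul ha hc, pow_add])
    hb hδ'0 hδ'1 hE hs hbad
  apply P.contra
  rw [hf]
  simp only
  rw [ArithmeticFunction.cardFactors_apply_prime Nat.prime_two]
  norm_num
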